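import Mathlib
import Pool.Agent.Helper40.CX.CHI.Defs
import Pool.Agent.Helper40.CX.H83VH.Decomp

/-!
# Voisin's property for the nontrivial characters, in terms of zero-cycles

Let `g` be an automorphism of `X` of order dividing `m`. The endomorphism
`∑ g ^ k_1 × ⋯ × g ^ k_n` of `X ^ n`, the sum over all `k` in `(ℤ / m) ^ n` with `k_1 + ⋯ + k_n = 0`,
is `m ^ (n - 1)` times the projector onto the sum of the parts of type `(ψ, .., ψ)`, for the
characters `ψ` of `ℤ / m`; if one of the factors is of the form `a - g a` then the trivial character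
does not contribute.
-/

set_option autoImplicit false
set_option linter.unusedSectionVars false

namespace Pool.Agent.Helper35.CHI

open CX CX.VC CX.VP CX.VF CX.VH CX.CHI Function

universe u

/-- Exterior products and push-forwards. -/
lemma ext'_mapDomain {α β : Type u} {n : ℕ} (f : Fin n → α → β) (a : Fin n → (α →₀ ℤ)) :
    ext' (fun i => Finsupp.mapDomain (f i) (a i)) =
      Finsupp.mapDomain (fun (p : Fin n → α) i => f i (p i)) (ext' a) := by
  let L1 : MultilinearMap ℤ (fun _ : Fin n => (α →₀ ℤ)) ((Fin n → β) →₀ ℤ) :=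
    (extM β n).compLinearMap (fun i => Finsupp.lmapDomain ℤ ℤ (f i))
  let L2 : MultilinearMap ℤ (fun _ : Fin n => (α →₀ ℤ)) ((Fin n → β) →₀ ℤ) :=
    (Finsupp.lmapDomain ℤ ℤ (fun (p : Fin n → α) i => f i (p i))).compMultilinearMap (extM α n)
  have h : L1 = L2 := by
    apply Module.Basis.ext_multilinear (fun _ => Finsupp.basisSingleOne)
    intro v
    simp only [Finsupp.coe_basisSingleOne]
    change ext' (fun i => Finsupp.mapDomain (f i) (Finsupp.single (v i) 1)) =
      Finsupp.mapDomain (fun (p : Fin n → α) i => f i (p i))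
        (ext' fun i => Finsupp.single (v i) 1)
    rw [ext'_single, Finsupp.mapDomain_single]
    have e : (fun i => Finsupp.mapDomain (f i) (Finsupp.single (v i) (1 : ℤ))) =
        fun i => Finsupp.single (f i (v i)) (1 : ℤ) := funext fun i => Finsupp.mapDomain_single
    rw [e, ext'_single]
  exact DFunLike.congr_fun h a

section

variable {k : Type u} [Field k] [IsAlgClosed k] [Good k] {X : Variety k} {m : ℕ} [NeZero m] {n : ℕ}

lemma extProd_map (f : Fin n → X.Pt → X.Pt) (a : Fin n → X.Cycles) :
    (extProd (fun i => Finsupp.mapDomain (f i) (a i)) : (X.pow n).Cycles) =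
      Finsupp.mapDomain (fun (p : Fin n → X.Pt) i => f i (p i)) (extProd a) :=
  ext'_mapDomain f a

variable (α : Act X m) (E : AddChar (ZMod m) ℂ)

/-- The part of type `(ψ, .., ψ)`, where `ψ x = E (c x)`. -/
noncomputable def part (c : ZMod m) (Φ : (X.pow n).Pt → ℂ) (p : (X.pow n).Pt) : ℂ :=
  ∑ x : Fin n → ZMod m, E (-(c * ∑ i, x i)) * Φ (TW α x p)

lemma kills_part (c : ZMod m) {Φ : (X.pow n).Pt → ℂ} (h : Kills (X.pow n) Φ) :
    Kills (X.pow n) (part α E c Φ) :=
  Kills.sum _ fun x _ => Kills.smul _ (h.comp (induced_TW α x))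

omit [IsAlgClosed k] [Good k] in
lemma part_update (c : ZMod m) (Φ : (X.pow n).Pt → ℂ) (p : (X.pow n).Pt) (i : Fin n) :
    part α E c Φ (update p i (α.act 1 (p i))) = E c * part α E c Φ p := by
  classical
  unfold part
  rw [Finset.mul_sum, ← Equiv.sum_comp (Equiv.addRight (Pi.single i (1 : ZMod m)))
    (fun x : Fin n → ZMod m => E c * (E (-(c * ∑ i, x i)) * Φ (TW α x p)))]
  refine Finset.sum_congr rfl fun x _ => ?_
  have h1 : TW α x (update p i (α.act 1 (p i))) = TW α (x + Pi.single i 1) p := by
    funext l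
    unfold TW
    by_cases hl : l = i
    · subst hl
      rw [update_self, ← α.add, Pi.add_apply, Pi.single_eq_same]
    · rw [update_of_ne hl, Pi.add_apply, Pi.single_eq_of_ne hl, add_zero]
  have h2 : ∑ l, (x + Pi.single i (1 : ZMod m) : Fin n → ZMod m) l = (∑ l, x l) + 1 := by
    simp only [Pi.add_apply, Finset.sum_add_distrib]
    rw [Finset.sum_pi_single']
    simp
  rw [Equiv.coe_addRight, h1, h2, ← mul_assoc, ← AddChar.map_add_eq_mul]
  congr 2
  ring

/-- The sum of all parts. -/
lemma sum_part (hE : IsFull E) (Φ : (X.pow n).Pt → ℂ) (p : (X.pow n).Pt) :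
    ∑ c, part α E c Φ p =
      (m : ℂ) * ∑ x ∈ Finset.univ.filter (fun x : Fin n → ZMod m => ∑ i, x i = 0),
        Φ (TW α x p) := by
  classical
  unfold part
  rw [Finset.sum_comm, Finset.sum_filter, Finset.mul_sum]
  refine Finset.sum_congr rfl fun x _ => ?_
  rw [← Finset.sum_mul]
  let φ : ZMod m →+ ZMod m :=
    { toFun := fun c => -(c * ∑ i, x i)
      map_zero' := by simp
      map_add' := fun a b => by ring }
  have h1 : ∑ c : ZMod m, E (-(c * ∑ i, x i)) = ∑ c, (E.compAddMonoidHom φ) c := rfl
  rw [h1, AddChar.sum_eq_ite]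
  have h2 : E.compAddMonoidHom φ = 0 ↔ ∑ i, x i = 0 := by
    constructor
    · intro h
      have h3 := DFunLike.congr_fun h (1 : ZMod m)
      have h4 : E (-(1 * ∑ i, x i)) = 1 := h3
      have h5 := hE.1 _ h4
      rwa [one_mul, neg_eq_zero] at h5
    · intro h
      ext c
      simp [φ, h]
  simp only [h2]
  by_cases h : ∑ i, x i = 0
  · rw [if_pos h, if_pos h, ZMod.card]
  · rw [if_neg h, if_neg h, zero_mul, mul_zero]

/-- The alternating sum of an exterior product in which one factor is `a - g a`, against a function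
which is invariant under `g`. -/
lemma lc_invariant (g : X.Pt → X.Pt) {Ψ : (X.pow n).Pt → ℂ}
    (h : ∀ p i, Ψ (update p i (g (p i))) = Ψ p) (a : Fin n → X.Cycles) (j : Fin n) :
    Finsupp.linearCombination ℤ Ψ
      (extProd (update a j (a j - (a j).mapDomain g)) : (X.pow n).Cycles) = 0 := by
  classical
  have h0 : (extProd (update a j (a j - (a j).mapDomain g)) : (X.pow n).Cycles) =
      extProd a - extProd (update a j ((a j).mapDomain g)) := by
    have := MultilinearMap.map_update_sub (extM X.Pt n) a j (a j) ((a j).mapDomain g)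
    rw [update_eq_self] at this
    exact this
  have h1 : (update a j ((a j).mapDomain g)) =
      fun i => Finsupp.mapDomain ((update (fun _ => id) j g : Fin n → X.Pt → X.Pt) i) (a i) := by
    funext i
    by_cases hi : i = j
    · subst hi
      rw [update_self, update_self]
    · rw [update_of_ne hi, update_of_ne hi, Finsupp.mapDomain_id]
  have h2 : (fun p : (X.pow n).Pt => Ψ (fun i => (update (fun _ => id) j g : Fin n → X.Pt → X.Pt) i (p i)))
      = Ψ := by
    funext p
    rw [← h p j]
    congr 1
    funext i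
    by_cases hi : i = j
    · subst hi
      rw [update_self, update_self]
    · rw [update_of_ne hi, update_of_ne hi]
      rfl
  rw [h0, map_sub, h1, extProd_map, Finsupp.linearCombination_mapDomain]
  change _ - Finsupp.linearCombination ℤ (fun p : (X.pow n).Pt =>
    Ψ (fun i => (update (fun _ => id) j g : Fin n → X.Pt → X.Pt) i (p i))) (extProd a) = 0
  rw [h2, sub_self]

/-- **Voisin's property for the nontrivial characters, in terms of zero-cycles.** -/
theorem cyc_of_chi (H : ∀ χ : ℂ, χ ^ m = 1 → χ ≠ 1 → VoisinChi X (α.act 1) χ n)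
    (a : Fin n → X.Cycles) (j : Fin n) (ha : ∃ b : X.Cycles, a j = b - b.mapDomain (α.act 1)) :
    ∃ N : ℕ, 0 < N ∧ N • ∑ σ : Equiv.Perm (Fin n), ((Equiv.Perm.sign σ : ℤˣ) : ℤ) •
      ∑ x ∈ Finset.univ.filter (fun x : Fin n → ZMod m => ∑ i, x i = 0),
        extProd (fun i => Finsupp.mapDomain (α.act (x i)) (a (σ i))) ∈ (X.pow n).Rat := by
  classical
  refine separation (X.pow n) _ fun Φ hΦ => ?_
  obtain ⟨E, hE⟩ := exists_full m
  obtain ⟨b, hb⟩ := ha
  -- the vanishing of the alternating sums of all parts
  have hpart : ∀ c : ZMod m, Finsupp.linearCombination ℤ (alt (part α E c Φ)) (extProd a) = 0 := by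
    intro c
    by_cases hc : c = 0
    · subst hc
      have h1 : a = update (update a j b) j ((update a j b) j -
          ((update a j b) j).mapDomain (α.act 1)) := by
        rw [update_idem, update_self, ← hb, update_eq_self]
      rw [h1]
      refine lc_invariant (α.act 1) (fun p i => ?_) (update a j b) j
      unfold alt
      refine Finset.sum_congr rfl fun σ _ => ?_
      congr 1
      have h2 : (fun l => (update p i (α.act 1 (p i)) : Fin n → X.Pt) (σ l)) =
          update (fun l => p (σ l)) (σ.symm i) (α.act 1 ((fun l => p (σ l)) (σ.symm i))) := by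
        funext l
        by_cases hl : l = σ.symm i
        · subst hl
          simp
        · rw [update_of_ne hl, update_of_ne]
          intro h
          exact hl (by rw [← h, Equiv.symm_apply_apply])
      rw [h2, part_update, AddChar.map_zero_eq_one, one_mul]
    · have h1 : E c ≠ 1 := fun h => hc (hE.1 c h)
      have h2 : E c ^ m = 1 := by
        rw [← AddChar.map_nsmul_eq_pow, nsmul_eq_mul, ZMod.natCast_self, zero_mul,
          AddChar.map_zero_eq_one]
      have h3 := H (E c) h2 h1 (part α E c Φ) (kills_part α E c hΦ)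
        (fun p i => part_update α E c Φ p i)
      have h4 : alt (part α E c Φ) = fun _ => (0 : ℂ) := by
        funext p
        rw [← h3 p]
        unfold alt
        refine Finset.sum_congr rfl fun σ _ => ?_
        rw [zsmul_eq_mul]
      rw [h4]
      exact lc_zero (X.pow n) _
  have key : (m : ℂ) * Finsupp.linearCombination ℤ Φ
      (∑ σ : Equiv.Perm (Fin n), ((Equiv.Perm.sign σ : ℤˣ) : ℤ) •
        ∑ x ∈ Finset.univ.filter (fun x : Fin n → ZMod m => ∑ i, x i = 0),
          (extProd (fun i => Finsupp.mapDomain (α.act (x i)) (a (σ i))) : (X.pow n).Cycles)) =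
      ∑ c : ZMod m, Finsupp.linearCombination ℤ (alt (part α E c Φ)) (extProd a) := by
    have h1 : ∀ c : ZMod m, Finsupp.linearCombination ℤ (alt (part α E c Φ)) (extProd a) =
        ∑ σ : Equiv.Perm (Fin n), ((Equiv.Perm.sign σ : ℤˣ) : ℤ) •
          Finsupp.linearCombination ℤ (part α E c Φ)
            (extProd (fun i => a (σ i)) : (X.pow n).Cycles) := by
      intro c
      rw [← lc_alt, map_sum]
      exact Finset.sum_congr rfl fun σ _ => map_zsmul _ _ _
    rw [Finset.sum_congr rfl fun c _ => h1 c, Finset.sum_comm, map_sum, Finset.mul_sum]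
    refine Finset.sum_congr rfl fun σ _ => ?_
    rw [map_zsmul, ← Finset.smul_sum, mul_smul_comm]
    congr 1
    rw [← lc_sum (X.pow n)]
    have h2 : (fun p : (X.pow n).Pt => ∑ c, part α E c Φ p) = fun p => (m : ℂ) *
        ∑ x ∈ Finset.univ.filter (fun x : Fin n → ZMod m => ∑ i, x i = 0), Φ (TW α x p) :=
      funext fun p => sum_part α E hE Φ p
    rw [h2, lc_smul (X.pow n), lc_sum (X.pow n), map_sum]
    congr 1
    refine Finset.sum_congr rfl fun x _ => ?_
    rw [extProd_map (fun i => α.act (x i)) (fun i => a (σ i)),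
      Finsupp.linearCombination_mapDomain]
    rfl
  rw [Finset.sum_eq_zero fun c _ => hpart c] at key
  exact (mul_eq_zero.1 key).resolve_left (Nat.cast_ne_zero.2 (NeZero.ne m))

end

end Pool.Agent.Helper35.CHI
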