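import Mathlib
import Pool.Agent.Helper35.CHI.Cyc

/-!
# Voisin's property for the nontrivial characters, in terms of zero-cycles: automorphisms of finite
order, two cycles
-/

set_option autoImplicit false
set_option linter.unusedSectionVars false

namespace Pool.Agent.Helper35.CHI

open CX CX.VC CX.VP CX.VF CX.VH CX.CHI Function

universe u

variable {k : Type u} [Field k] [IsAlgClosed k] [Good k] {X : Variety k} {m : ℕ} {n : ℕ}

lemma iterate_congr {g : X.Pt → X.Pt} (hm : m ≠ 0) (hg : ∀ p, g^[m] p = p) {a b : ℕ}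
    (h : (a : ZMod m) = b) : g^[a] = g^[b] := by
  have : NeZero m := ⟨hm⟩
  funext p
  rw [← iterate_mod hg a, ← iterate_mod hg b, (ZMod.natCast_eq_natCast_iff' a b m).1 h]

/-- Voisin's property for the nontrivial characters of an automorphism `g` with `g ^ m = 1`, in
terms of zero-cycles: the projection to the characters `(ψ, .., ψ)` of the alternating sum of the
exterior products of `n` cycles, one of which is of the form `b - g b`. -/
theorem cyc_iter (hm : m ≠ 0) (g : X.Pt → X.Pt) (hi : Induced X X g) (hg : ∀ p, g^[m] p = p)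
    (H : ∀ χ : ℂ, χ ^ m = 1 → χ ≠ 1 → VoisinChi X g χ n) (a : Fin n → X.Cycles) (j : Fin n)
    (ha : ∃ b : X.Cycles, a j = b - b.mapDomain g) :
    ∃ N : ℕ, 0 < N ∧ N • ∑ σ : Equiv.Perm (Fin n), ((Equiv.Perm.sign σ : ℤˣ) : ℤ) •
      ∑ x ∈ Finset.univ.filter (fun x : Fin n → Fin m => m ∣ ∑ i, (x i : ℕ)),
        extProd (fun i => (a (σ i)).mapDomain (g^[x i])) ∈ (X.pow n).Rat := by
  classical
  have : NeZero m := ⟨hm⟩
  have h1 : (Act.ofIterate (m := m) g hi hg).act 1 = g := by
    change g^[(1 : ZMod m).val] = g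
    have h2 : g^[(1 : ZMod m).val] = g^[1] := by
      apply iterate_congr hm hg
      rw [ZMod.natCast_zmod_val, Nat.cast_one]
    rw [h2]
    rfl
  obtain ⟨N, hN, h⟩ := cyc_of_chi (Act.ofIterate (m := m) g hi hg) (by rw [h1]; exact H) a j
    (by rw [h1]; exact ha)
  refine ⟨N, hN, ?_⟩
  convert h using 4 with σ
  refine Finset.sum_bij' (fun x _ i => ((x i : ℕ) : ZMod m))
    (fun y _ i => (⟨(y i).val, ZMod.val_lt _⟩ : Fin m)) ?_ ?_ ?_ ?_ ?_
  · intro x hx
    rw [Finset.mem_filter] at hx ⊢
    refine ⟨Finset.mem_univ _, ?_⟩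
    rw [← Nat.cast_sum]
    exact (ZMod.natCast_eq_zero_iff _ _).2 hx.2
  · intro y hy
    rw [Finset.mem_filter] at hy ⊢
    refine ⟨Finset.mem_univ _, ?_⟩
    rw [← ZMod.natCast_eq_zero_iff, Nat.cast_sum]
    simp only [ZMod.natCast_zmod_val]
    exact hy.2
  · intro x _
    funext i
    apply Fin.ext
    change (((x i : ℕ) : ZMod m)).val = (x i : ℕ)
    rw [ZMod.val_natCast, Nat.mod_eq_of_lt (x i).2]
  · intro y _
    funext i
    exact ZMod.natCast_zmod_val _
  · intro x _
    congr 1
    funext i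
    change _ = Finsupp.mapDomain (g^[(((x i : ℕ) : ZMod m)).val]) (a (σ i))
    rw [ZMod.val_natCast, Nat.mod_eq_of_lt (x i).2]

/-- Two cycles. -/
theorem cyc_two (hm : m ≠ 0) (g : X.Pt → X.Pt) (hi : Induced X X g) (hg : ∀ p, g^[m] p = p)
    (H : ∀ χ : ℂ, χ ^ m = 1 → χ ≠ 1 → VoisinChi X g χ 2) (a b : X.Cycles) :
    ∃ r : ℕ, 0 < r ∧ r • ∑ k ∈ Finset.range m,
      (extProd ![(a - a.mapDomain g).mapDomain g^[k], b.mapDomain g^[m - k]] -
        extProd ![b.mapDomain g^[m - k], (a - a.mapDomain g).mapDomain g^[k]]) ∈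
        (X.pow 2).Rat := by
  classical
  have : NeZero m := ⟨hm⟩
  have h1 : (Act.ofIterate (m := m) g hi hg).act 1 = g := by
    change g^[(1 : ZMod m).val] = g
    have h2 : g^[(1 : ZMod m).val] = g^[1] := by
      apply iterate_congr hm hg
      rw [ZMod.natCast_zmod_val, Nat.cast_one]
    rw [h2]
    rfl
  obtain ⟨N, hN, h⟩ := cyc_of_chi (Act.ofIterate (m := m) g hi hg) (by rw [h1]; exact H)
    (![a - a.mapDomain g, b]) 0 (by rw [h1]; exact ⟨a, rfl⟩)
  refine ⟨N, hN, ?_⟩
  have hs : ∀ f : Equiv.Perm (Fin 2) → (X.pow 2).Cycles, ∑ σ, f σ = f 1 + f (Equiv.swap 0 1) := by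
    intro f
    rw [show (Finset.univ : Finset (Equiv.Perm (Fin 2))) = {1, Equiv.swap 0 1} by decide,
      Finset.sum_pair (by decide)]
  rw [hs, Equiv.Perm.sign_one, Equiv.Perm.sign_swap (by decide)] at h
  rw [Finset.sum_sub_distrib]
  convert h using 2
  rw [Units.val_one, one_smul, Units.val_neg, Units.val_one, neg_smul, one_smul, ← sub_eq_add_neg]
  have hval : ∀ k : ℕ, k < m → ((k : ZMod m)).val = k := fun k hk => by
    rw [ZMod.val_natCast, Nat.mod_eq_of_lt hk]
  have hneg : ∀ k : ℕ, k < m → g^[(-(k : ZMod m)).val] = g^[m - k] := by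
    intro k hk
    apply iterate_congr hm hg
    rw [ZMod.natCast_zmod_val, Nat.cast_sub hk.le, ZMod.natCast_self, zero_sub]
  congr 1
  · refine Finset.sum_bij' (fun k _ => ![(k : ZMod m), -(k : ZMod m)])
      (fun x _ => (x 0).val) ?_ ?_ ?_ ?_ ?_
    · intro k hk
      rw [Finset.mem_filter]
      exact ⟨Finset.mem_univ _, by rw [Fin.sum_univ_two]; exact add_neg_cancel _⟩
    · intro x hx
      rw [Finset.mem_range]
      exact ZMod.val_lt _
    · intro k hk
      exact hval k (Finset.mem_range.1 hk)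
    · intro x hx
      rw [Finset.mem_filter, Fin.sum_univ_two] at hx
      funext i
      fin_cases i
      · exact ZMod.natCast_zmod_val _
      · change -(((x 0).val : ℕ) : ZMod m) = x 1
        rw [ZMod.natCast_zmod_val]
        exact neg_eq_of_add_eq_zero_right hx.2
    · intro k hk
      rw [Finset.mem_range] at hk
      congr 1
      funext i
      fin_cases i
      · change Finsupp.mapDomain (g^[k]) (a - a.mapDomain g) =
          Finsupp.mapDomain (g^[((k : ZMod m)).val]) (a - a.mapDomain g)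
        rw [hval k hk]
      · change Finsupp.mapDomain (g^[m - k]) b = Finsupp.mapDomain (g^[(-(k : ZMod m)).val]) b
        rw [hneg k hk]
  · refine Finset.sum_bij' (fun k _ => ![-(k : ZMod m), (k : ZMod m)])
      (fun x _ => (x 1).val) ?_ ?_ ?_ ?_ ?_
    · intro k hk
      rw [Finset.mem_filter]
      exact ⟨Finset.mem_univ _, by rw [Fin.sum_univ_two]; exact neg_add_cancel _⟩
    · intro x hx
      rw [Finset.mem_range]
      exact ZMod.val_lt _
    · intro k hk
      exact hval k (Finset.mem_range.1 hk)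
    · intro x hx
      rw [Finset.mem_filter, Fin.sum_univ_two] at hx
      funext i
      fin_cases i
      · change -(((x 1).val : ℕ) : ZMod m) = x 0
        rw [ZMod.natCast_zmod_val]
        exact neg_eq_of_add_eq_zero_left hx.2
      · exact ZMod.natCast_zmod_val _
    · intro k hk
      rw [Finset.mem_range] at hk
      congr 1
      funext i
      fin_cases i
      · change Finsupp.mapDomain (g^[m - k]) b = Finsupp.mapDomain (g^[(-(k : ZMod m)).val])
          (![a - a.mapDomain g, b] (Equiv.swap (0 : Fin 2) 1 0))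
        rw [hneg k hk, Equiv.swap_apply_left]
        rfl
      · change Finsupp.mapDomain (g^[k]) (a - a.mapDomain g) =
          Finsupp.mapDomain (g^[((k : ZMod m)).val])
            (![a - a.mapDomain g, b] (Equiv.swap (0 : Fin 2) 1 1))
        rw [hval k hk, Equiv.swap_apply_right]
        rfl

end Pool.Agent.Helper35.CHI
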