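import Mathlib
import Pool.Agent.Helper35.CHI.Cyc2

/-!
# The automorphism of a projective model given by an automorphism of the function field

Let `ξ` be homogeneous coordinates of a point of projective space with coordinates in the field `F`,
and let `σ` be an automorphism of `F` with `σ (ξ j) = c j * ξ j`. Then
`(x j) ↦ (c j * x j)` is an automorphism of the closure `X` of `ξ`.
-/

set_option autoImplicit false
set_option linter.unusedSectionVars false

namespace Pool.Agent.Helper35.CHI

open CX CX.VC CX.VP CX.VF CX.VH CX.CHI Function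
open CX.Pool.Agent.Helper21.TO

universe u

section sat

variable {k F : Type u} [Field k] [Field F] [Algebra k F] {N : ℕ} {ξ : Fin N → F} {c : Fin N → k}
  {σ : F ≃ₐ[k] F} {K : Type u} [Field K] [Algebra k K]

lemma sat_van_zero {a : Fin N → K} (h : Sat (van k ξ) a) {j : Fin N} (hj : ξ j = 0) : a j = 0 := by
  have h1 : (MvPolynomial.X j : MvPolynomial (Fin N) k) ∈ van k ξ := by
    change MvPolynomial.aeval ξ (MvPolynomial.X j) = 0
    rw [MvPolynomial.aeval_X, hj]
  have h2 := h _ h1 1 (MvPolynomial.isHomogeneous_X k j)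
  rwa [MvPolynomial.aeval_X] at h2

lemma sat_van_mul (hσ : ∀ j, σ (ξ j) = algebraMap k F (c j) * ξ j) {a : Fin N → K}
    (h : Sat (van k ξ) a) : Sat (van k ξ) (fun j => algebraMap k K (c j) * a j) := by
  intro P hP n hn
  have e : ∀ (M : Type u) [Field M] [Algebra k M] (b : Fin N → M),
      MvPolynomial.aeval b (MvPolynomial.bind₁ (fun j => MvPolynomial.C (c j) * MvPolynomial.X j) P) =
        MvPolynomial.aeval (fun j => algebraMap k M (c j) * b j) P := by
    intro M _ _ b
    rw [MvPolynomial.aeval_bind₁]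
    congr 2
    funext j
    rw [map_mul, MvPolynomial.aeval_X, MvPolynomial.aeval_C]
  rw [← e]
  refine h _ ?_ n ?_
  · change MvPolynomial.aeval ξ _ = 0
    rw [e]
    have h1 : (fun j => algebraMap k F (c j) * ξ j) = fun j => σ (ξ j) := funext fun j => (hσ j).symm
    rw [h1]
    have h2 : MvPolynomial.aeval (fun j => σ (ξ j)) P = σ (MvPolynomial.aeval ξ P) := by
      have := (MvPolynomial.comp_aeval_apply ξ (σ : F →ₐ[k] F) P)
      exact this.symm
    rw [h2]
    have h3 : MvPolynomial.aeval ξ P = 0 := hP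
    rw [h3, map_zero]
  · have := hn.aeval (fun j => (MvPolynomial.C (c j) * MvPolynomial.X j : MvPolynomial (Fin N) k))
      (n := 1) (fun j => by
        have := (MvPolynomial.isHomogeneous_C (Fin N) (c j)).mul (MvPolynomial.isHomogeneous_X k j)
        rwa [zero_add] at this)
    rwa [one_mul] at this

/-- The map on points with coordinates in `K`. -/
noncomputable def act (hc : ∀ j, c j ≠ 0) (hσ : ∀ j, σ (ξ j) = algebraMap k F (c j) * ξ j)
    (K : Type u) [Field K] [Algebra k K] (x : PPt k K (van k ξ)) : PPt k K (van k ξ) :=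
  ppt (fun j => algebraMap k K (c j) * x.1.rep j)
    (by
      intro h
      apply x.1.rep_nonzero
      funext j
      exact (mul_eq_zero.1 (congrFun h j)).resolve_left ((_root_.map_ne_zero _).2 (hc j)))
    (sat_van_mul hσ x.2)

lemma act_ppt (hc : ∀ j, c j ≠ 0) (hσ : ∀ j, σ (ξ j) = algebraMap k F (c j) * ξ j)
    {a : Fin N → K} (ha : a ≠ 0) (h : Sat (van k ξ) a)
    (ha' : (fun j => algebraMap k K (c j) * a j) ≠ 0) :
    act hc hσ K (ppt a ha h) = ppt (fun j => algebraMap k K (c j) * a j) ha' (sat_van_mul hσ h) := by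
  unfold act
  apply ppt_eq_of_cross
  intro i j
  obtain ⟨l, hl⟩ := Projectivization.exists_smul_eq_mk_rep K a ha
  have e : ∀ i, (ppt (I := van k ξ) a ha h).1.rep i = (l : K) * a i := by
    intro i
    change (Projectivization.mk K a ha).rep i = _
    rw [← hl, Pi.smul_apply, Units.smul_def, smul_eq_mul]
  rw [e, e]
  ring

lemma mul_ne (hc : ∀ j, c j ≠ 0) {a : Fin N → K} (ha : a ≠ 0) :
    (fun j => algebraMap k K (c j) * a j) ≠ 0 := by
  intro h
  apply ha
  funext j
  exact (mul_eq_zero.1 (congrFun h j)).resolve_left ((_root_.map_ne_zero _).2 (hc j))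

end sat

section

variable {k F : Type u} [Field k] [IsAlgClosed k] [Good k] [Field F] [Algebra k F] {N : ℕ}
  {ξ : Fin N → F} {c : Fin N → k} {σ : F ≃ₐ[k] F} {m : ℕ}

lemma induced_act (hc : ∀ j, c j ≠ 0) (hσ : ∀ j, σ (ξ j) = algebraMap k F (c j) * ξ j) :
    Induced (proj k (van k ξ)) (proj k (van k ξ)) (act hc hσ k) := by
  intro K _ _ hK x
  refine ⟨act hc hσ K x, fun v => ?_⟩
  obtain ⟨a, ha, h, b, hb, h', hx, hv, hr⟩ := exists_pcoord hK v x
  rw [hv, hx, act_ppt hc hσ ha h (mul_ne hc ha), act_ppt hc hσ hb h' (mul_ne hc hb)]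
  exact peval_eq hK v _ _ _ _ fun i => (isRes_const (c i)).mul (hr i)

lemma act_iterate (hc : ∀ j, c j ≠ 0) (hσ : ∀ j, σ (ξ j) = algebraMap k F (c j) * ξ j)
    (x : PPt k k (van k ξ)) (n : ℕ) :
    ∃ h h', (act hc hσ k)^[n] x = ppt (fun j => c j ^ n * x.1.rep j) h h' := by
  induction n with
  | zero =>
    have e : (fun j => c j ^ 0 * x.1.rep j) = x.1.rep := by
      funext j
      rw [pow_zero, one_mul]
    rw [e]
    refine ⟨x.1.rep_nonzero, x.2, ?_⟩
    apply Subtype.ext
    exact x.1.mk_rep.symm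
  | succ n ih =>
    obtain ⟨h, h', e⟩ := ih
    have e1 : (fun j => c j ^ (n + 1) * x.1.rep j) =
        fun j => algebraMap k k (c j) * (c j ^ n * x.1.rep j) := by
      funext j
      rw [Algebra.algebraMap_self, RingHom.id_apply, pow_succ]
      ring
    rw [e1]
    refine ⟨mul_ne hc h, sat_van_mul hσ h', ?_⟩
    rw [iterate_succ_apply', e, act_ppt hc hσ h h' (mul_ne hc h)]

/-- **The automorphism of the model.** If the homogeneous coordinates are eigenvectors of an
automorphism `σ` of the function field with `σ ^ m = 1`, then it acts on the model. -/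
theorem exists_act (hσ : ∀ j, σ (ξ j) = algebraMap k F (c j) * ξ j)
    (hm : ∀ j, (σ^[m]) (ξ j) = ξ j) :
    ∃ g : (proj k (van k ξ)).Pt → (proj k (van k ξ)).Pt,
      (∀ p, ∃ l : k, l ≠ 0 ∧ ∀ j, (g p).1.rep j = l * (c j * p.1.rep j)) ∧
      Induced (proj k (van k ξ)) (proj k (van k ξ)) g ∧ ∀ p, g^[m] p = p := by
  classical
  let c' : Fin N → k := fun j => if ξ j = 0 then 1 else c j
  have hc0 : ∀ j, ξ j ≠ 0 → c j ≠ 0 := by
    intro j hj h
    have h1 := hσ j
    rw [h, map_zero, zero_mul] at h1
    exact hj ((_root_.map_eq_zero σ).1 h1)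
  have hc : ∀ j, c' j ≠ 0 := by
    intro j
    by_cases hj : ξ j = 0
    · simp only [c', if_pos hj]
      exact one_ne_zero
    · simp only [c', if_neg hj]
      exact hc0 j hj
  have hσ' : ∀ j, σ (ξ j) = algebraMap k F (c' j) * ξ j := by
    intro j
    by_cases hj : ξ j = 0
    · rw [hj, map_zero, mul_zero]
    · simp only [c', if_neg hj]
      exact hσ j
  have hit : ∀ n j, (σ^[n]) (ξ j) = algebraMap k F (c' j ^ n) * ξ j := by
    intro n j
    induction n with
    | zero => rw [pow_zero, map_one, one_mul]; rfl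
    | succ n ih =>
      rw [iterate_succ_apply', ih, map_mul, AlgEquiv.commutes, hσ' j, pow_succ, map_mul]
      ring
  have hcm : ∀ j, c' j ^ m = 1 := by
    intro j
    by_cases hj : ξ j = 0
    · simp only [c', if_pos hj]
      exact one_pow m
    · have h1 := hit m j
      rw [hm j] at h1
      have h2 : algebraMap k F (c' j ^ m) = 1 := mul_right_cancel₀ hj (by rw [one_mul]; exact h1.symm)
      rw [← map_one (algebraMap k F)] at h2
      exact (algebraMap k F).injective h2
  refine ⟨act hc hσ' k, fun p => ?_, induced_act hc hσ', fun p => ?_⟩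
  · have h0 : (fun j => algebraMap k k (c' j) * p.1.rep j) ≠ 0 := mul_ne hc p.1.rep_nonzero
    obtain ⟨l, hl⟩ := Projectivization.exists_smul_eq_mk_rep k _ h0
    refine ⟨l, l.ne_zero, fun j => ?_⟩
    change (Projectivization.mk k (fun j => algebraMap k k (c' j) * p.1.rep j) h0).rep j = _
    rw [← hl, Pi.smul_apply, Units.smul_def, smul_eq_mul, Algebra.algebraMap_self, RingHom.id_apply]
    congr 1
    by_cases hj : ξ j = 0
    · have h1 : p.1.rep j = 0 := sat_van_zero (ξ := ξ) p.2 hj
      rw [h1, mul_zero, mul_zero]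
    · simp only [c', if_neg hj]
  · obtain ⟨h, h', e⟩ := act_iterate hc hσ' p m
    rw [e]
    apply Subtype.ext
    change Projectivization.mk k (fun j => c' j ^ m * p.1.rep j) h = p.1
    conv_rhs => rw [← p.1.mk_rep]
    congr 1
    funext j
    rw [hcm j, one_mul]

end

end Pool.Agent.Helper35.CHI
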